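import Pool.Agent.Y716.C.Smooth

/-!
# Weak approximation for 100% of the intersections of two quadrics in `ℙⁿ`, `n ≥ 5`

Let `n ≥ 5`. Among the smooth complete intersections `q 0 = q 1 = 0` of two quadrics in `ℙⁿ`, with
integral quadratic forms with coefficients bounded by `H`, which have points over the real numbers
and over all the `p`-adic fields, a proportion tending to `1` as `H → ∞` satisfies weak
approximation to precision `1 / m(H)` at the real place and at all the primes up to `m(H)`, where
`m(H) → ∞`. In particular 100% of them have a rational point.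
-/

set_option autoImplicit false

namespace Pool.Agent.Results.MP_9fb703_nt.RandomTwoQuadrics

/-- The pairs of quadratic forms in `n + 1` variables whose coefficients are integers of absolute
value at most `H`. -/
def Pairs (n H : ℕ) : Set (Fin 2 → MvPolynomial (Fin (n + 1)) ℤ) :=
  {q | ∀ j, (q j).IsHomogeneous 2 ∧ ∀ m, |(q j).coeff m| ≤ (H : ℤ)}

/-- The quadratic forms `q 0, q 1` define a smooth complete intersection in `ℙⁿ`: at every common
zero over a field of characteristic zero the Jacobian matrix has rank `2`, that is, no nontrivial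
linear combination of the gradients of the two forms vanishes there. -/
def Smooth {n : ℕ} (q : Fin 2 → MvPolynomial (Fin (n + 1)) ℤ) : Prop :=
  ∀ (K : Type) [Field K] [CharZero K] (x : Fin (n + 1) → K) (l : Fin 2 → K), x ≠ 0 → l ≠ 0 →
    (∀ j, MvPolynomial.aeval x (q j) = 0) →
    ∃ i, ∑ j, l j * MvPolynomial.aeval x (MvPolynomial.pderiv i (q j)) ≠ 0

/-- The intersection `q 0 = q 1 = 0` in `ℙⁿ` has points over the real numbers and over all the
`p`-adic fields. -/
def LocallySoluble {n : ℕ} (q : Fin 2 → MvPolynomial (Fin (n + 1)) ℤ) : Prop :=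
  (∃ x : Fin (n + 1) → ℝ, x ≠ 0 ∧ ∀ j, MvPolynomial.aeval x (q j) = 0) ∧
    ∀ (p : ℕ) [Fact p.Prime], ∃ x : Fin (n + 1) → ℚ_[p], x ≠ 0 ∧
      ∀ j, MvPolynomial.aeval x (q j) = 0

/-- Weak approximation for the intersection `q 0 = q 1 = 0` in `ℙⁿ`, to precision `1 / m` at the
real place and at the primes up to `m`: for all real points `y` and `p`-adic points `z p` of the
intersection, one for each prime `p`, there is a rational point `x` of the intersection such that,
for suitable representatives of the point `x` of the projective space, the coordinates of `y - x`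
are at most `‖y‖ / m` and the coordinates of `z p - x` are at most `‖z p‖ / m` for all the primes
`p ≤ m` (`‖y‖` and `‖z p‖` being the largest absolute value of a coordinate). -/
def WeakApproximation (m : ℕ) {n : ℕ} (q : Fin 2 → MvPolynomial (Fin (n + 1)) ℤ) : Prop :=
  ∀ (z : ∀ (p : ℕ) [Fact p.Prime], Fin (n + 1) → ℚ_[p]) (y : Fin (n + 1) → ℝ),
    (∀ (p : ℕ) [Fact p.Prime], z p ≠ 0 ∧ ∀ j, MvPolynomial.aeval (z p) (q j) = 0) → y ≠ 0 →
    (∀ j, MvPolynomial.aeval y (q j) = 0) →
    ∃ x : Fin (n + 1) → ℚ, x ≠ 0 ∧ (∀ j, MvPolynomial.aeval x (q j) = 0) ∧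
      (∀ (p : ℕ) [Fact p.Prime], p ≤ m → ∃ c : ℚ_[p], c ≠ 0 ∧
        ∀ i, ‖z p i - c * (x i : ℚ_[p])‖ ≤ ‖z p‖ / m) ∧
      ∃ c : ℝ, c ≠ 0 ∧ ∀ i, |y i - c * (x i : ℝ)| ≤ ‖y‖ / m

/-- For `n ≥ 5` there is a function `m` tending to infinity such that 100% of the everywhere
locally soluble smooth complete intersections of two quadrics in `ℙⁿ` of height at most `H` satisfy
weak approximation to precision `1 / m(H)` at the real place and at the primes up to `m(H)`. -/
theorem result (n : ℕ) (hn : 5 ≤ n) :
    ∃ m : ℕ → ℕ, Filter.Tendsto m Filter.atTop Filter.atTop ∧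
      Filter.Tendsto (fun H : ℕ =>
        (({q | q ∈ Pairs n H ∧ Smooth q ∧ LocallySoluble q ∧ WeakApproximation (m H) q} :
          Set _).ncard : ℝ) /
        (({q | q ∈ Pairs n H ∧ Smooth q ∧ LocallySoluble q} : Set _).ncard : ℝ))
      Filter.atTop (nhds 1) := by
  exact Pool.Agent.Y716.C.wa_smooth (Fin (n + 1)) (s := 2) (by norm_num)
    (by rw [Fintype.card_fin]; omega) (fun _ => 0) (by rw [Fintype.card_fin]; simp; omega)

end Pool.Agent.Results.MP_9fb703_nt.RandomTwoQuadrics
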